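import Mathlib

set_option autoImplicit false

namespace Pool.Agent.Lib.MP_b50c09_co

open Finset

/-- Kovari-Sos-Turan type lemma: a dense bipartite relation has `t` left vertices with a
dense common neighbourhood. -/
theorem kst (t : ℕ) (b : ℝ) (hb : 0 < b) :
    ∃ b' : ℝ, 0 < b' ∧ ∃ a0 : ℕ, ∀ (α β : Type) [DecidableEq α] (A : Finset α) (B : Finset β)
      (T : α → β → Prop) [∀ x y, Decidable (T x y)], a0 ≤ A.card →
      b * A.card * B.card ≤ ∑ y ∈ B, ((A.filter (fun x => T x y)).card : ℝ) →
      ∃ X ⊆ A, X.card = t ∧ b' * B.card ≤ ((B.filter (fun y => ∀ x ∈ X, T x y)).card : ℝ) := by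
  refine ⟨(b / 4) ^ t * (b / 2), by positivity, ⌈4 * t / b⌉₊ + t + 1, ?_⟩
  intro α β _ A B T _ hA hsum
  have hA1 : t + 1 ≤ A.card := by omega
  have hApos : (0 : ℝ) < A.card := by exact_mod_cast (by omega : 0 < A.card)
  have hA2 : 4 * t / b ≤ (A.card : ℝ) := by
    have h1 : (4 * t / b : ℝ) ≤ ⌈4 * t / b⌉₊ := Nat.le_ceil _
    have h2 : ((⌈4 * t / b⌉₊ : ℕ) : ℝ) ≤ A.card := Nat.cast_le.mpr (by omega)
    linarith
  have hA3 : (t : ℝ) ≤ b * A.card / 4 := by
    rw [div_le_iff₀ hb] at hA2
    linarith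
  set B' := B.filter (fun y => b * A.card / 2 ≤ ((A.filter (fun x => T x y)).card : ℝ)) with hB'
  have hB'card : b / 2 * B.card ≤ (B'.card : ℝ) := by
    have h1 : ∑ y ∈ B, ((A.filter (fun x => T x y)).card : ℝ)
        ≤ ∑ y ∈ B, ((if b * A.card / 2 ≤ ((A.filter (fun x => T x y)).card : ℝ) then (A.card : ℝ)
          else 0) + b * A.card / 2) := by
      apply Finset.sum_le_sum
      intro y _
      split_ifs with h
      · have : ((A.filter (fun x => T x y)).card : ℝ) ≤ A.card := by
          exact_mod_cast Finset.card_filter_le _ _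
        have : 0 ≤ b * A.card / 2 := by positivity
        linarith
      · linarith
    rw [Finset.sum_add_distrib, ← Finset.sum_filter, Finset.sum_const, Finset.sum_const,
      nsmul_eq_mul, nsmul_eq_mul] at h1
    have h2 : b * A.card * B.card ≤ B'.card * A.card + B.card * (b * A.card / 2) :=
      le_trans hsum h1
    have h3 : (b / 2 * B.card) * A.card ≤ B'.card * A.card := by nlinarith
    exact le_of_mul_le_mul_right h3 hApos
  have key : ∀ j : ℕ, j ≤ t → ∃ X ⊆ A, X.card = j ∧
      (b / 4) ^ j * B'.card ≤ ((B'.filter (fun y => ∀ x ∈ X, T x y)).card : ℝ) := by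
    intro j
    induction j with
    | zero =>
      intro _
      refine ⟨∅, by simp, by simp, ?_⟩
      simp
    | succ j ih =>
      intro hj
      obtain ⟨X, hXA, hXc, hX⟩ := ih (by omega)
      set N := B'.filter (fun y => ∀ x ∈ X, T x y) with hN
      have hne : (A \ X).Nonempty := by
        rw [← Finset.card_pos, Finset.card_sdiff_of_subset hXA]
        omega
      have hsum2 : ∑ _a ∈ A \ X, (b / 4 * N.card : ℝ)
          ≤ ∑ a ∈ A \ X, ((N.filter (fun y => T a y)).card : ℝ) := by
        have e1 : ∑ a ∈ A \ X, ((N.filter (fun y => T a y)).card : ℝ)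
            = ∑ y ∈ N, (((A \ X).filter (fun a => T a y)).card : ℝ) := by
          simp only [Finset.card_filter]
          push_cast
          rw [Finset.sum_comm]
        rw [e1, Finset.sum_const, nsmul_eq_mul]
        have e2 : ∀ y ∈ N, b * A.card / 4 ≤ (((A \ X).filter (fun a => T a y)).card : ℝ) := by
          intro y hy
          have hy1 : b * A.card / 2 ≤ ((A.filter (fun x => T x y)).card : ℝ) :=
            (Finset.mem_filter.mp (Finset.mem_filter.mp hy).1).2
          have hsub : A.filter (fun x => T x y) ⊆ ((A \ X).filter (fun a => T a y)) ∪ X := by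
            intro a ha
            rw [Finset.mem_filter] at ha
            by_cases hx : a ∈ X
            · exact Finset.mem_union_right _ hx
            · exact Finset.mem_union_left _
                (Finset.mem_filter.mpr ⟨Finset.mem_sdiff.mpr ⟨ha.1, hx⟩, ha.2⟩)
          have hc : (A.filter (fun x => T x y)).card
              ≤ ((A \ X).filter (fun a => T a y)).card + X.card :=
            le_trans (Finset.card_le_card hsub) (Finset.card_union_le _ _)
          have hc' : ((A.filter (fun x => T x y)).card : ℝ)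
              ≤ ((A \ X).filter (fun a => T a y)).card + (j : ℝ) := by
            rw [hXc] at hc
            exact_mod_cast hc
          have hjt : (j : ℝ) ≤ t := by exact_mod_cast (by omega : j ≤ t)
          linarith
        have e3 : ∑ _y ∈ N, (b * A.card / 4 : ℝ)
            ≤ ∑ y ∈ N, (((A \ X).filter (fun a => T a y)).card : ℝ) := Finset.sum_le_sum e2
        rw [Finset.sum_const, nsmul_eq_mul] at e3
        have e4 : ((A \ X).card : ℝ) ≤ A.card := by
          exact_mod_cast Finset.card_le_card Finset.sdiff_subset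
        have e5 : (0 : ℝ) ≤ b / 4 * N.card := by positivity
        nlinarith
      obtain ⟨a, ha, hle⟩ := Finset.exists_le_of_sum_le hne hsum2
      rw [Finset.mem_sdiff] at ha
      refine ⟨insert a X, Finset.insert_subset ha.1 hXA, ?_, ?_⟩
      · rw [Finset.card_insert_of_notMem ha.2, hXc]
      · have e6 : N.filter (fun y => T a y) = B'.filter (fun y => ∀ x ∈ insert a X, T x y) := by
          ext y
          simp only [hN, Finset.mem_filter, Finset.forall_mem_insert]
          tauto
        rw [← e6, pow_succ]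
        have : (0 : ℝ) ≤ b / 4 := by positivity
        nlinarith
  obtain ⟨X, hXA, hXc, hX⟩ := key t le_rfl
  refine ⟨X, hXA, hXc, ?_⟩
  have h1 : ((B'.filter (fun y => ∀ x ∈ X, T x y)).card : ℝ)
      ≤ (B.filter (fun y => ∀ x ∈ X, T x y)).card := by
    exact_mod_cast Finset.card_le_card
      (Finset.filter_subset_filter _ (Finset.filter_subset _ _))
  have h2 : (0 : ℝ) ≤ (b / 4) ^ t := by positivity
  calc (b / 4) ^ t * (b / 2) * B.card = (b / 4) ^ t * (b / 2 * B.card) := by ring
    _ ≤ (b / 4) ^ t * B'.card := by gcongr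
    _ ≤ _ := le_trans hX h1

/-- Number of ordered triples in `R` satisfying `T`, as a real number. -/
noncomputable def cnt3 {V : Type} (R : Finset V) (T : V → V → V → Prop)
    [∀ x y z, Decidable (T x y z)] : ℝ :=
  ∑ x ∈ R, ∑ y ∈ R, ∑ z ∈ R, if T x y z then (1 : ℝ) else 0

/-- Erdos' box theorem for triples. -/
theorem box (t : ℕ) (b : ℝ) (hb : 0 < b) :
    ∃ n0 : ℕ, ∀ (V : Type) [DecidableEq V] (R : Finset V) (T : V → V → V → Prop)
      [∀ x y z, Decidable (T x y z)], n0 ≤ R.card → b * (R.card : ℝ) ^ 3 ≤ cnt3 R T →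
      ∃ X ⊆ R, ∃ Y ⊆ R, ∃ Z ⊆ R, X.card = t ∧ Y.card = t ∧ Z.card = t ∧
        ∀ x ∈ X, ∀ y ∈ Y, ∀ z ∈ Z, T x y z := by
  obtain ⟨b1, hb1, a1, h1⟩ := kst t b hb
  obtain ⟨b2, hb2, a2, h2⟩ := kst t b1 hb1
  refine ⟨a1 + a2 + ⌈t / b2⌉₊, ?_⟩
  intro V _ R T _ hR hcnt
  have s1 := h1 V (V × V) R (R ×ˢ R) (fun x p => T x p.1 p.2) (by omega) (by
    rw [Finset.card_product, Finset.sum_product]
    simp only [Finset.card_filter]
    push_cast
    have : ∑ y ∈ R, ∑ z ∈ R, ∑ x ∈ R, (if T x y z then (1 : ℝ) else 0) = cnt3 R T := by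
      unfold cnt3
      rw [Finset.sum_comm (s := R) (t := R)
        (f := fun x y => ∑ z ∈ R, if T x y z then (1 : ℝ) else 0)]
      apply Finset.sum_congr rfl
      intro y _
      rw [Finset.sum_comm]
    rw [this]
    nlinarith)
  obtain ⟨X, hXR, hXc, hX⟩ := s1
  have s2 := h2 V V R R (fun y z => ∀ x ∈ X, T x y z) (by omega) (by
    rw [Finset.card_product, Finset.card_filter, Nat.cast_sum, Finset.sum_product] at hX
    simp only [Finset.card_filter]
    push_cast at hX ⊢
    rw [Finset.sum_comm]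
    nlinarith)
  obtain ⟨Y, hYR, hYc, hY⟩ := s2
  have h3 : t ≤ (R.filter (fun z => ∀ y ∈ Y, ∀ x ∈ X, T x y z)).card := by
    have e1 : (t / b2 : ℝ) ≤ ⌈t / b2⌉₊ := Nat.le_ceil _
    have e2 : ((⌈t / b2⌉₊ : ℕ) : ℝ) ≤ R.card := by exact_mod_cast (by omega)
    have e3 : (t : ℝ) ≤ b2 * R.card := by
      have := le_trans e1 e2
      rw [div_le_iff₀ hb2] at this
      linarith
    exact_mod_cast le_trans e3 hY
  obtain ⟨Z, hZ, hZc⟩ := Finset.exists_subset_card_eq h3
  refine ⟨X, hXR, Y, hYR, Z, hZ.trans (Finset.filter_subset _ _), hXc, hYc, hZc, ?_⟩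
  intro x hx y hy z hz
  exact (Finset.mem_filter.mp (hZ hz)).2 y hy x hx

end Pool.Agent.Lib.MP_b50c09_co
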