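import Mathlib
import Pool.Agent.Lib.MP_b50c09_co.Box

set_option autoImplicit false
set_option linter.unusedSectionVars false
set_option linter.unusedVariables false

namespace Pool.Agent.Lib.MP_b50c09_co

open Finset

/-- `E` is the ordered edge relation of a 3-graph. -/
structure Sym3 {V : Type} (E : V → V → V → Prop) : Prop where
  s12 : ∀ x y z, E x y z → E y x z
  s23 : ∀ x y z, E x y z → E x z y
  irr : ∀ x z, ¬ E x x z

/-- Codegree of `u, v` into `R`. -/
noncomputable def cod {V : Type} (E : V → V → V → Prop) [∀ x y z, Decidable (E x y z)]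
    (R : Finset V) (u v : V) : ℝ :=
  ∑ z ∈ R, if E u v z then (1 : ℝ) else 0

/-- Ordered degree of `v` into `R`. -/
noncomputable def dg {V : Type} (E : V → V → V → Prop) [∀ x y z, Decidable (E x y z)]
    (R : Finset V) (v : V) : ℝ :=
  ∑ y ∈ R, cod E R v y

/-- `S` is the vertex set of a complete tripartite 3-graph with parts of size `t`. -/
def Blk {V : Type} [DecidableEq V] (E : V → V → V → Prop) (t : ℕ) (S : Finset V) : Prop :=
  ∃ X Y Z : Finset V, X.card = t ∧ Y.card = t ∧ Z.card = t ∧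
    (∀ x ∈ X, ∀ y ∈ Y, ∀ z ∈ Z, E x y z) ∧ S = X ∪ Y ∪ Z

section
variable {V : Type} [DecidableEq V] {E : V → V → V → Prop}

theorem disj_of_complete (hE : Sym3 E) {t : ℕ} (ht : 1 ≤ t) {X Y Z : Finset V}
    (hX : X.card = t) (hY : Y.card = t) (hZ : Z.card = t)
    (h : ∀ x ∈ X, ∀ y ∈ Y, ∀ z ∈ Z, E x y z) :
    Disjoint X Y ∧ Disjoint X Z ∧ Disjoint Y Z := by
  obtain ⟨x0, hx0⟩ : X.Nonempty := Finset.card_pos.mp (by omega)
  obtain ⟨y0, hy0⟩ : Y.Nonempty := Finset.card_pos.mp (by omega)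
  obtain ⟨z0, hz0⟩ : Z.Nonempty := Finset.card_pos.mp (by omega)
  refine ⟨?_, ?_, ?_⟩
  · rw [Finset.disjoint_left]
    intro a ha hb
    exact hE.irr a z0 (h a ha a hb z0 hz0)
  · rw [Finset.disjoint_left]
    intro a ha hb
    exact hE.irr a y0 (hE.s23 _ _ _ (h a ha y0 hy0 a hb))
  · rw [Finset.disjoint_left]
    intro a ha hb
    exact hE.irr a x0 (hE.s23 _ _ _ (hE.s12 _ _ _ (h x0 hx0 a ha a hb)))

theorem sum_of_complete (hE : Sym3 E) {t : ℕ} (ht : 1 ≤ t) {X Y Z : Finset V}
    (hX : X.card = t) (hY : Y.card = t) (hZ : Z.card = t)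
    (h : ∀ x ∈ X, ∀ y ∈ Y, ∀ z ∈ Z, E x y z) (w : V → ℝ) :
    ∑ v ∈ X ∪ Y ∪ Z, w v = ∑ v ∈ X, w v + ∑ v ∈ Y, w v + ∑ v ∈ Z, w v := by
  obtain ⟨h1, h2, h3⟩ := disj_of_complete hE ht hX hY hZ h
  rw [Finset.sum_union (Finset.disjoint_union_left.mpr ⟨h2, h3⟩), Finset.sum_union h1]

theorem Blk.card (hE : Sym3 E) {t : ℕ} (ht : 1 ≤ t) {S : Finset V} (hS : Blk E t S) :
    S.card = 3 * t := by
  obtain ⟨X, Y, Z, hX, hY, hZ, h, rfl⟩ := hS
  obtain ⟨h1, h2, h3⟩ := disj_of_complete hE ht hX hY hZ h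
  rw [Finset.card_union_of_disjoint (Finset.disjoint_union_left.mpr ⟨h2, h3⟩),
    Finset.card_union_of_disjoint h1]
  omega

variable [∀ x y z, Decidable (E x y z)]

/-- codegree restricted to vertices outside a small bad set -/
theorem cod_restrict (R : Finset V) (u v : V) (P : V → Prop) [DecidablePred P] :
    cod E R u v - ((R.filter (fun z => ¬ P z)).card : ℝ)
      ≤ ∑ z ∈ R, if E u v z ∧ P z then (1 : ℝ) else 0 := by
  unfold cod
  rw [Finset.card_filter]
  push_cast
  rw [← Finset.sum_sub_distrib]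
  apply Finset.sum_le_sum
  intro z _
  by_cases h1 : E u v z <;> by_cases h2 : P z <;> simp [h1, h2]

/-- many triples with two vertices in `A` and the third satisfying `P` -/
theorem count_AAP (R : Finset V) (c k : ℝ) (hk : 0 < k) (hkc : k ≤ c)
    (hcod : ∀ u ∈ R, ∀ v ∈ R, u ≠ v → c * R.card ≤ cod E R u v)
    (Q P : V → Prop) [DecidablePred Q] [DecidablePred P]
    (hQ : k * R.card ≤ ((R.filter Q).card : ℝ)) (h2 : 2 ≤ k * R.card)
    (hP : ((R.filter (fun z => ¬ P z)).card : ℝ) ≤ k * R.card) :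
    k ^ 2 * (c - k) / 2 * (R.card : ℝ) ^ 3 ≤
      cnt3 R (fun x y z => Q x ∧ Q y ∧ (E x y z ∧ P z)) := by
  unfold cnt3
  set n : ℝ := (R.card : ℝ) with hn
  have hn0 : 0 ≤ n := by positivity
  have inner : ∀ x ∈ R, (if Q x then (k * n / 2) * ((c - k) * n) else 0) ≤
      ∑ y ∈ R, ∑ z ∈ R, if Q x ∧ Q y ∧ (E x y z ∧ P z) then (1 : ℝ) else 0 := by
    intro x hx
    by_cases hQx : Q x
    · simp only [hQx, if_true, true_and]
      have in2 : ∀ y ∈ R, (if y ∈ (R.filter Q).erase x then ((c - k) * n) else 0) ≤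
          ∑ z ∈ R, if Q y ∧ (E x y z ∧ P z) then (1 : ℝ) else 0 := by
        intro y hy
        by_cases hy2 : y ∈ (R.filter Q).erase x
        · rw [if_pos hy2]
          rw [Finset.mem_erase, Finset.mem_filter] at hy2
          simp only [hy2.2.2, true_and]
          have e1 := cod_restrict (E := E) R x y P
          have e2 := hcod x hx y hy (Ne.symm hy2.1)
          linarith
        · rw [if_neg hy2]
          apply Finset.sum_nonneg
          intro z _
          split_ifs <;> norm_num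
      refine le_trans ?_ (Finset.sum_le_sum in2)
      rw [← Finset.sum_filter, Finset.sum_const, nsmul_eq_mul]
      have e3 : R.filter (fun y => y ∈ (R.filter Q).erase x) = (R.filter Q).erase x := by
        ext y
        simp only [Finset.mem_filter, Finset.mem_erase]
        tauto
      rw [e3]
      have e4 : ((R.filter Q).card : ℝ) - 1 ≤ (((R.filter Q).erase x).card : ℝ) := by
        have := Finset.pred_card_le_card_erase (s := R.filter Q) (a := x)
        have h5 : (R.filter Q).card ≤ ((R.filter Q).erase x).card + 1 := by omega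
        have h6 : ((R.filter Q).card : ℝ) ≤ (((R.filter Q).erase x).card : ℝ) + 1 := by
          exact_mod_cast h5
        linarith
      have e5 : 0 ≤ (c - k) * n := mul_nonneg (by linarith) hn0
      apply mul_le_mul_of_nonneg_right _ e5
      linarith
    · simp only [hQx, if_false, false_and]
      simp
  refine le_trans ?_ (Finset.sum_le_sum inner)
  rw [← Finset.sum_filter, Finset.sum_const, nsmul_eq_mul]
  have e5 : 0 ≤ (k * n / 2) * ((c - k) * n) :=
    mul_nonneg (by positivity) (mul_nonneg (by linarith) hn0)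
  calc k ^ 2 * (c - k) / 2 * n ^ 3 = (k * n) * ((k * n / 2) * ((c - k) * n)) := by ring
    _ ≤ _ := mul_le_mul_of_nonneg_right hQ e5

/-- many triples `x y z` with `v y z` and `x y z` edges, avoiding a small set -/
theorem count_through (R : Finset V) (c k : ℝ) (hk : 0 < k) (hkc : k ≤ c) (hk4 : k ≤ 1 / 4)
    (hE : Sym3 E)
    (hcod : ∀ u ∈ R, ∀ v ∈ R, u ≠ v → c * R.card ≤ cod E R u v)
    (P : V → Prop) [DecidablePred P] (h4 : 4 ≤ R.card)
    (hP : ((R.filter (fun z => ¬ P z)).card : ℝ) ≤ k * R.card) (v : V) (hv : v ∈ R) :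
    (c - k) ^ 2 / 2 * (R.card : ℝ) ^ 3 ≤
      cnt3 R (fun y z x => P y ∧ (E v y z ∧ P z) ∧ (E y z x ∧ P x)) := by
  unfold cnt3
  set n : ℝ := (R.card : ℝ) with hn
  have hn4 : 4 ≤ n := by rw [hn]; exact_mod_cast h4
  have hn0 : 0 ≤ n := by positivity
  have hck : 0 ≤ (c - k) * n := mul_nonneg (by linarith) hn0
  have inner : ∀ y ∈ R, (if y ∈ (R.filter P).erase v then ((c - k) * n) * ((c - k) * n) else 0) ≤
      ∑ z ∈ R, ∑ x ∈ R, if P y ∧ (E v y z ∧ P z) ∧ (E y z x ∧ P x) then (1 : ℝ) else 0 := by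
    intro y hy
    by_cases hy2 : y ∈ (R.filter P).erase v
    · rw [if_pos hy2]
      rw [Finset.mem_erase, Finset.mem_filter] at hy2
      simp only [hy2.2.2, true_and]
      have in2 : ∀ z ∈ R, (if E v y z ∧ P z then (1 : ℝ) else 0) * ((c - k) * n) ≤
          ∑ x ∈ R, if (E v y z ∧ P z) ∧ (E y z x ∧ P x) then (1 : ℝ) else 0 := by
        intro z hz
        by_cases hz2 : E v y z ∧ P z
        · simp only [hz2, and_self, if_true, true_and, one_mul]
          have hyz : y ≠ z := by
            rintro rfl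
            exact hE.irr y v (hE.s23 _ _ _ (hE.s12 _ _ _ hz2.1))
          have e1 := cod_restrict (E := E) R y z P
          have e2 := hcod y hy z hz hyz
          linarith
        · simp only [hz2, if_false, false_and]
          simp
      refine le_trans ?_ (Finset.sum_le_sum in2)
      rw [← Finset.sum_mul]
      apply mul_le_mul_of_nonneg_right _ hck
      have e1 := cod_restrict (E := E) R v y P
      have e2 := hcod v hv y hy (Ne.symm hy2.1)
      linarith
    · rw [if_neg hy2]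
      apply Finset.sum_nonneg
      intro z _
      apply Finset.sum_nonneg
      intro x _
      split_ifs <;> norm_num
  refine le_trans ?_ (Finset.sum_le_sum inner)
  rw [← Finset.sum_filter, Finset.sum_const, nsmul_eq_mul]
  have e3 : R.filter (fun y => y ∈ (R.filter P).erase v) = (R.filter P).erase v := by
    ext y
    simp only [Finset.mem_filter, Finset.mem_erase]
    tauto
  rw [e3]
  have e4 : n / 2 ≤ (((R.filter P).erase v).card : ℝ) := by
    have := Finset.pred_card_le_card_erase (s := R.filter P) (a := v)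
    have h5 : (R.filter P).card ≤ ((R.filter P).erase v).card + 1 := by omega
    have h6 : ((R.filter P).card : ℝ) ≤ (((R.filter P).erase v).card : ℝ) + 1 := by
      exact_mod_cast h5
    have h7 := Finset.card_filter_add_card_filter_not (s := R) P
    have h8 : ((R.filter P).card : ℝ) + ((R.filter (fun z => ¬ P z)).card : ℝ) = n := by
      rw [hn]; exact_mod_cast h7
    nlinarith
  calc (c - k) ^ 2 / 2 * n ^ 3 = (n / 2) * (((c - k) * n) * ((c - k) * n)) := by ring
    _ ≤ _ := mul_le_mul_of_nonneg_right e4 (mul_nonneg hck hck)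

omit [DecidableEq V] in
theorem sum_edges_eq (hE : Sym3 E) (R : Finset V) (w : V → ℝ) :
    ∑ x ∈ R, ∑ y ∈ R, ∑ z ∈ R, (if E x y z then w x + w y + w z else 0)
      = 3 * ∑ x ∈ R, dg E R x * w x := by
  have a1 : ∑ x ∈ R, ∑ y ∈ R, ∑ z ∈ R, (if E x y z then w x else 0)
      = ∑ x ∈ R, dg E R x * w x := by
    apply Finset.sum_congr rfl
    intro x _
    unfold dg cod
    rw [Finset.sum_mul]
    apply Finset.sum_congr rfl
    intro y _
    rw [Finset.sum_mul]
    apply Finset.sum_congr rfl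
    intro z _
    split_ifs <;> simp
  have a2 : ∑ x ∈ R, ∑ y ∈ R, ∑ z ∈ R, (if E x y z then w y else 0)
      = ∑ x ∈ R, dg E R x * w x := by
    rw [Finset.sum_comm, ← a1]
    apply Finset.sum_congr rfl
    intro x _
    apply Finset.sum_congr rfl
    intro y _
    apply Finset.sum_congr rfl
    intro z _
    have : E y x z ↔ E x y z := ⟨hE.s12 _ _ _, hE.s12 _ _ _⟩
    simp only [this]
  have a3 : ∑ x ∈ R, ∑ y ∈ R, ∑ z ∈ R, (if E x y z then w z else 0)
      = ∑ x ∈ R, dg E R x * w x := by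
    rw [← a2]
    apply Finset.sum_congr rfl
    intro x _
    rw [Finset.sum_comm]
    apply Finset.sum_congr rfl
    intro y _
    apply Finset.sum_congr rfl
    intro z _
    have : E x z y ↔ E x y z := ⟨hE.s23 _ _ _, hE.s23 _ _ _⟩
    simp only [this]
  have a4 : ∑ x ∈ R, ∑ y ∈ R, ∑ z ∈ R, (if E x y z then w x + w y + w z else 0)
      = ∑ x ∈ R, ∑ y ∈ R, ∑ z ∈ R, (if E x y z then w x else 0)
        + ∑ x ∈ R, ∑ y ∈ R, ∑ z ∈ R, (if E x y z then w y else 0)
        + ∑ x ∈ R, ∑ y ∈ R, ∑ z ∈ R, (if E x y z then w z else 0) := by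
    simp only [← Finset.sum_add_distrib]
    apply Finset.sum_congr rfl
    intro x _
    apply Finset.sum_congr rfl
    intro y _
    apply Finset.sum_congr rfl
    intro z _
    split_ifs <;> simp
  rw [a4, a1, a2, a3]
  ring

omit [∀ x y z, Decidable (E x y z)] in
/-- a lower quantile of a weight function -/
theorem exists_quantile (R : Finset V) (hR : R.Nonempty) (w : V → ℝ) (q : ℝ) (hq0 : 0 < q)
    (hq : q ≤ R.card) :
    ∃ m : ℝ, q ≤ ((R.filter (fun u => w u ≤ m)).card : ℝ) ∧
      ((R.filter (fun u => ¬ m ≤ w u)).card : ℝ) < q := by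
  classical
  have hne : (R.filter (fun v => q ≤ ((R.filter (fun u => w u ≤ w v)).card : ℝ))).Nonempty := by
    obtain ⟨v, hv, hmax⟩ := Finset.exists_max_image R w hR
    refine ⟨v, Finset.mem_filter.mpr ⟨hv, ?_⟩⟩
    rw [Finset.filter_true_of_mem hmax]
    exact hq
  obtain ⟨v, hv, hmin⟩ := Finset.exists_min_image _ w hne
  rw [Finset.mem_filter] at hv
  refine ⟨w v, hv.2, ?_⟩
  by_cases hL : (R.filter (fun u => ¬ w v ≤ w u)).Nonempty
  · obtain ⟨v', hv', hmax⟩ := Finset.exists_max_image _ w hL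
    rw [Finset.mem_filter] at hv'
    by_contra hcon
    push Not at hcon
    have hsub : R.filter (fun u => ¬ w v ≤ w u) ⊆ R.filter (fun u => w u ≤ w v') := by
      intro u hu
      exact Finset.mem_filter.mpr ⟨(Finset.mem_filter.mp hu).1, hmax u hu⟩
    have h1 : ((R.filter (fun u => ¬ w v ≤ w u)).card : ℝ)
        ≤ (R.filter (fun u => w u ≤ w v')).card := by
      exact_mod_cast Finset.card_le_card hsub
    have h2 : q ≤ ((R.filter (fun u => ¬ w v ≤ w u)).card : ℝ) := by
      simpa using hcon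
    have h3 := hmin v' (Finset.mem_filter.mpr ⟨hv'.1, le_trans h2 h1⟩)
    exact hv'.2 h3
  · rw [Finset.not_nonempty_iff_eq_empty] at hL
    rw [hL]
    simpa using hq0

end

/-- The dual lemma: in an almost regular 3-graph with linear codegrees every weighting of
nonnegative total weight gives nonnegative weight to some block. -/
theorem dual (t : ℕ) (ht : 1 ≤ t) (c : ℝ) (hc : 0 < c) (hc1 : c ≤ 1) :
    ∃ d : ℝ, 0 < d ∧ ∃ n0 : ℕ, ∀ (V : Type) [DecidableEq V] (E : V → V → V → Prop)
      [∀ x y z, Decidable (E x y z)] (R : Finset V), Sym3 E → n0 ≤ R.card →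
      (∀ u ∈ R, ∀ v ∈ R, u ≠ v → c * R.card ≤ cod E R u v) →
      (∀ u ∈ R, ∀ v ∈ R, dg E R u ≤ dg E R v + d * (R.card : ℝ) ^ 2) →
      ∀ w : V → ℝ, 0 ≤ ∑ v ∈ R, w v → ∃ S ⊆ R, Blk E t S ∧ 0 ≤ ∑ v ∈ S, w v := by
  set k : ℝ := c / 4 with hk
  have hk0 : 0 < k := by positivity
  have hkc : k ≤ c := by linarith
  have hk4 : k ≤ 1 / 4 := by linarith
  have hck : 0 < c - k := by linarith
  set th : ℝ := k ^ 2 * (c - k) / 2 with hth
  have hth0 : 0 < th := by positivity
  have htR : (1 : ℝ) ≤ t := by exact_mod_cast ht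
  set b : ℝ := th / (13 * t) with hb
  have hb0 : 0 < b := by positivity
  have hbth : b ≤ th := by
    rw [hb]
    apply div_le_self hth0.le
    linarith
  obtain ⟨n1, hn1⟩ := box t b hb0
  obtain ⟨n2, hn2⟩ := box t ((c - k) ^ 2 / 2) (by positivity)
  refine ⟨b, hb0, n1 + n2 + ⌈2 / k⌉₊ + 4, ?_⟩
  intro V _ E _ R hE hR hcod hdg w hw
  by_contra hcon
  push Not at hcon
  set n : ℝ := (R.card : ℝ) with hn
  have hRne : R.Nonempty := Finset.card_pos.mp (by omega)
  have hn4 : 4 ≤ n := by rw [hn]; exact_mod_cast (by omega : 4 ≤ R.card)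
  have hkn : 2 ≤ k * n := by
    have e1 : (2 / k : ℝ) ≤ ⌈2 / k⌉₊ := Nat.le_ceil _
    have e2 : ((⌈2 / k⌉₊ : ℕ) : ℝ) ≤ R.card := Nat.cast_le.mpr (by omega)
    have := le_trans e1 e2
    rw [div_le_iff₀ hk0] at this
    linarith
  obtain ⟨m, hLp, hLm⟩ := exists_quantile R hRne w (k * n) (by positivity) (by nlinarith)
  -- Step 1: every weight is below `(3t-1)(-m)`
  have step1 : ∀ v ∈ R, w v + (3 * t - 1) * m < 0 := by
    intro v hv
    have hc3 := count_through R c k hk0 hkc hk4 hE hcod (fun u => m ≤ w u) (by omega) hLm.le v hv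
    obtain ⟨Y, hYR, Z, hZR, X, hXR, hYc, hZc, hXc, hall⟩ := hn2 V R _ (by omega) hc3
    obtain ⟨x0, hx0⟩ : X.Nonempty := Finset.card_pos.mp (by omega)
    obtain ⟨y0, hy0⟩ : Y.Nonempty := Finset.card_pos.mp (by omega)
    obtain ⟨z0, hz0⟩ : Z.Nonempty := Finset.card_pos.mp (by omega)
    have hcard : t - 1 ≤ (X.erase v).card := by
      have := Finset.pred_card_le_card_erase (s := X) (a := v)
      omega
    obtain ⟨X', hX', hX'c⟩ := Finset.exists_subset_card_eq hcard
    have hvX' : v ∉ X' := fun h => Finset.notMem_erase v X (hX' h)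
    have hX'X : X' ⊆ X := hX'.trans (Finset.erase_subset _ _)
    have hc' : (insert v X').card = t := by
      rw [Finset.card_insert_of_notMem hvX', hX'c]
      omega
    have hcomp : ∀ x ∈ insert v X', ∀ y ∈ Y, ∀ z ∈ Z, E x y z := by
      intro x hx y hy z hz
      rw [Finset.mem_insert] at hx
      rcases hx with rfl | hx
      · exact (hall y hy z hz x0 hx0).2.1.1
      · exact hE.s12 _ _ _ (hE.s23 _ _ _ (hall y hy z hz x (hX'X hx)).2.2.1)
    have hneg := hcon (insert v X' ∪ Y ∪ Z)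
      (Finset.union_subset (Finset.union_subset
        (Finset.insert_subset hv (hX'X.trans hXR)) hYR) hZR)
      ⟨_, _, _, hc', hYc, hZc, hcomp, rfl⟩
    rw [sum_of_complete hE ht hc' hYc hZc hcomp, Finset.sum_insert hvX'] at hneg
    have b1 : (X'.card : ℝ) * m ≤ ∑ x ∈ X', w x := by
      have := Finset.card_nsmul_le_sum X' w m
        (fun x hx => (hall y0 hy0 z0 hz0 x (hX'X hx)).2.2.2)
      simpa using this
    have b2 : (Y.card : ℝ) * m ≤ ∑ x ∈ Y, w x := by
      have := Finset.card_nsmul_le_sum Y w m (fun y hy => (hall y hy z0 hz0 x0 hx0).1)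
      simpa using this
    have b3 : (Z.card : ℝ) * m ≤ ∑ x ∈ Z, w x := by
      have := Finset.card_nsmul_le_sum Z w m (fun z hz => (hall y0 hy0 z hz x0 hx0).2.1.2)
      simpa using this
    rw [hX'c, Nat.cast_sub ht] at b1
    rw [hYc] at b2
    rw [hZc] at b3
    push_cast at b1
    linarith
  have hm : m < 0 := by
    obtain ⟨v, hv, hv0⟩ : ∃ v ∈ R, (0 : ℝ) ≤ w v := by
      by_contra h
      push Not at h
      have := Finset.sum_neg h hRne
      linarith
    have := step1 v hv
    by_contra h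
    push Not at h
    have : 0 ≤ (3 * (t : ℝ) - 1) * m := mul_nonneg (by linarith) h
    linarith
  set B : ℝ := 3 * t * (-m) with hB
  have hB0 : 0 < B := by
    rw [hB]
    apply mul_pos <;> linarith
  have hwB : ∀ v ∈ R, w v ≤ B := by
    intro v hv
    have := step1 v hv
    rw [hB]
    linarith
  -- Step 2: few edges of nonnegative weight
  have step2 : cnt3 R (fun x y z => E x y z ∧ 0 ≤ w x + w y + w z) < b * n ^ 3 := by
    by_contra h
    push Not at h
    obtain ⟨X, hXR, Y, hYR, Z, hZR, hXc, hYc, hZc, hall⟩ := hn1 V R _ (by omega) h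
    obtain ⟨x0, hx0, hxm⟩ := Finset.exists_min_image X w (Finset.card_pos.mp (by omega))
    obtain ⟨y0, hy0, hym⟩ := Finset.exists_min_image Y w (Finset.card_pos.mp (by omega))
    obtain ⟨z0, hz0, hzm⟩ := Finset.exists_min_image Z w (Finset.card_pos.mp (by omega))
    have hcomp : ∀ x ∈ X, ∀ y ∈ Y, ∀ z ∈ Z, E x y z :=
      fun x hx y hy z hz => (hall x hx y hy z hz).1
    have hneg := hcon (X ∪ Y ∪ Z) (Finset.union_subset (Finset.union_subset hXR hYR) hZR)
      ⟨_, _, _, hXc, hYc, hZc, hcomp, rfl⟩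
    rw [sum_of_complete hE ht hXc hYc hZc hcomp] at hneg
    have b1 : (X.card : ℝ) * w x0 ≤ ∑ x ∈ X, w x := by
      simpa using Finset.card_nsmul_le_sum X w _ hxm
    have b2 : (Y.card : ℝ) * w y0 ≤ ∑ x ∈ Y, w x := by
      simpa using Finset.card_nsmul_le_sum Y w _ hym
    have b3 : (Z.card : ℝ) * w z0 ≤ ∑ x ∈ Z, w x := by
      simpa using Finset.card_nsmul_le_sum Z w _ hzm
    rw [hXc] at b1
    rw [hYc] at b2
    rw [hZc] at b3
    have b4 := (hall x0 hx0 y0 hy0 z0 hz0).2
    have b5 : 0 ≤ (t : ℝ) * (w x0 + w y0 + w z0) := mul_nonneg (by linarith) b4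
    linarith
  have hn3 : 0 < n ^ 3 := by positivity
  -- Step 3: few vertices of large weight
  have step3 : ((R.filter (fun z => ¬ w z ≤ -m / 2)).card : ℝ) ≤ k * n := by
    by_contra h
    push Not at h
    have h' : k * n ≤ ((R.filter (fun z => ¬ w z ≤ -m / 2)).card : ℝ) := by
      simpa using h.le
    have hc3 := count_AAP R c k hk0 hkc hcod (fun z => ¬ w z ≤ -m / 2) (fun u => m ≤ w u)
      h' hkn hLm.le
    have hle : cnt3 R (fun x y z => (¬ w x ≤ -m / 2) ∧ (¬ w y ≤ -m / 2) ∧ (E x y z ∧ m ≤ w z))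
        ≤ cnt3 R (fun x y z => E x y z ∧ 0 ≤ w x + w y + w z) := by
      unfold cnt3
      apply Finset.sum_le_sum
      intro x _
      apply Finset.sum_le_sum
      intro y _
      apply Finset.sum_le_sum
      intro z _
      by_cases hh : (¬ w x ≤ -m / 2) ∧ (¬ w y ≤ -m / 2) ∧ (E x y z ∧ m ≤ w z)
      · rw [if_pos hh, if_pos ⟨hh.2.2.1, by
          have a1 := not_le.mp hh.1
          have a2 := not_le.mp hh.2.1
          have a3 := hh.2.2.2
          linarith⟩]
      · rw [if_neg hh]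
        split_ifs <;> norm_num
    have h9 : b * n ^ 3 ≤ th * n ^ 3 := mul_le_mul_of_nonneg_right hbth hn3.le
    exact absurd (lt_of_le_of_lt (le_trans (le_trans h9 hc3) hle) step2) (lt_irrefl _)
  -- Step 4: compare the two evaluations of the total edge weight
  have hc4 := count_AAP R c k hk0 hkc hcod (fun z => w z ≤ m) (fun z => w z ≤ -m / 2)
      hLp hkn step3
  have upper : ∑ x ∈ R, ∑ y ∈ R, ∑ z ∈ R, (if E x y z then w x + w y + w z else 0)
      ≤ 3 * B * cnt3 R (fun x y z => E x y z ∧ 0 ≤ w x + w y + w z)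
        + 3 / 2 * m * cnt3 R (fun x y z => w x ≤ m ∧ w y ≤ m ∧ (E x y z ∧ w z ≤ -m / 2)) := by
    unfold cnt3
    simp only [Finset.mul_sum, ← Finset.sum_add_distrib]
    apply Finset.sum_le_sum
    intro x hx
    apply Finset.sum_le_sum
    intro y hy
    apply Finset.sum_le_sum
    intro z hz
    have a1 := hwB x hx
    have a2 := hwB y hy
    have a3 := hwB z hz
    by_cases h1 : E x y z
    · by_cases h2 : w x ≤ m ∧ w y ≤ m ∧ (E x y z ∧ w z ≤ -m / 2)
      · have h3 : ¬ (E x y z ∧ 0 ≤ w x + w y + w z) := by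
          rintro ⟨_, h4⟩
          linarith [h2.1, h2.2.1, h2.2.2.2]
        rw [if_pos h1, if_neg h3, if_pos h2]
        linarith [h2.1, h2.2.1, h2.2.2.2]
      · rw [if_pos h1, if_neg h2]
        by_cases h3 : 0 ≤ w x + w y + w z
        · rw [if_pos ⟨h1, h3⟩]
          linarith
        · rw [if_neg (fun h => h3 h.2)]
          linarith
    · simp [h1]
  have lower : -(b * n ^ 3 * B) ≤ ∑ x ∈ R, dg E R x * w x := by
    obtain ⟨v, hv, hmax⟩ := Finset.exists_max_image R (dg E R) hRne
    have hD : 0 ≤ dg E R v := by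
      unfold dg cod
      apply Finset.sum_nonneg
      intro y _
      apply Finset.sum_nonneg
      intro z _
      split_ifs <;> norm_num
    have e1 : ∀ x ∈ R, dg E R v * w x - b * n ^ 2 * B ≤ dg E R x * w x := by
      intro x hx
      have a1 := hmax x hx
      have a2 := hdg v hv x hx
      have a3 := hwB x hx
      have a4 : (dg E R v - dg E R x) * w x ≤ (dg E R v - dg E R x) * B :=
        mul_le_mul_of_nonneg_left a3 (by linarith)
      have a5 : (dg E R v - dg E R x) * B ≤ (b * n ^ 2) * B :=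
        mul_le_mul_of_nonneg_right (by linarith) hB0.le
      linarith
    have e2 := Finset.sum_le_sum e1
    rw [Finset.sum_sub_distrib, ← Finset.mul_sum, Finset.sum_const, nsmul_eq_mul] at e2
    have e3 : 0 ≤ dg E R v * ∑ x ∈ R, w x := mul_nonneg hD hw
    have e4 : (R.card : ℝ) * (b * n ^ 2 * B) = b * n ^ 3 * B := by rw [← hn]; ring
    linarith
  rw [sum_edges_eq hE R w] at upper
  have f1 : 3 * B * cnt3 R (fun x y z => E x y z ∧ 0 ≤ w x + w y + w z)
      ≤ 3 * B * (b * n ^ 3) := mul_le_mul_of_nonneg_left step2.le (by linarith)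
  have f2 : 3 / 2 * m * cnt3 R (fun x y z => w x ≤ m ∧ w y ≤ m ∧ (E x y z ∧ w z ≤ -m / 2))
      ≤ 3 / 2 * m * (th * n ^ 3) := mul_le_mul_of_nonpos_left hc4 (by linarith)
  have f3 : b * B = 3 / 13 * th * (-m) := by
    rw [hb, hB]
    field_simp
  have f4 : 0 < th * (-m) * n ^ 3 := by
    apply mul_pos _ hn3
    apply mul_pos hth0
    linarith
  have f5 : b * n ^ 3 * B = 3 / 13 * (th * (-m) * n ^ 3) := by
    calc b * n ^ 3 * B = (b * B) * n ^ 3 := by ring
      _ = _ := by rw [f3]; ring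
  nlinarith

end Pool.Agent.Lib.MP_b50c09_co
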