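import Mathlib
import Pool.Agent.Lib.MP_b50c09_co.Greedy

set_option autoImplicit false
set_option linter.unusedSectionVars false
set_option linter.unusedVariables false

namespace Pool.Agent.Lib.MP_b50c09_co

open Finset

section
variable {V : Type} [DecidableEq V] (E : V → V → V → Prop) [∀ x y z, Decidable (E x y z)]

/-- The centred test functions attached to a vertex set `R`. -/
noncomputable def test (R : Finset V) : (V × V) ⊕ V → V → ℝ
  | Sum.inl p => fun z => (if E p.1 p.2 z then (1 : ℝ) else 0) - cod E R p.1 p.2 / R.card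
  | Sum.inr v => fun y => cod E R v y / R.card - dg E R v / (R.card : ℝ) ^ 2

theorem cod_nonneg (R : Finset V) (u v : V) : 0 ≤ cod E R u v := by
  unfold cod
  apply Finset.sum_nonneg
  intro z _
  split_ifs <;> norm_num

theorem cod_le (R : Finset V) (u v : V) : cod E R u v ≤ R.card := by
  unfold cod
  calc _ ≤ ∑ _z ∈ R, (1 : ℝ) := by
        apply Finset.sum_le_sum
        intro z _
        split_ifs <;> norm_num
    _ = R.card := by simp

theorem dg_nonneg (R : Finset V) (v : V) : 0 ≤ dg E R v :=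
  Finset.sum_nonneg (fun y _ => cod_nonneg E R v y)

theorem dg_le (R : Finset V) (v : V) : dg E R v ≤ (R.card : ℝ) ^ 2 := by
  unfold dg
  calc _ ≤ ∑ _z ∈ R, (R.card : ℝ) := Finset.sum_le_sum (fun y _ => cod_le E R v y)
    _ = (R.card : ℝ) ^ 2 := by simp [sq]

theorem test_abs_le (R : Finset V) (hR : 0 < R.card) (j : (V × V) ⊕ V) (v : V) :
    |test E R j v| ≤ 1 := by
  have hn : (0 : ℝ) < R.card := by exact_mod_cast hR
  have h1 : ∀ a b, 0 ≤ cod E R a b / R.card := fun a b => div_nonneg (cod_nonneg E R a b) hn.le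
  have h2 : ∀ a b, cod E R a b / R.card ≤ 1 := fun a b => (div_le_one hn).mpr (cod_le E R a b)
  rcases j with p | u
  · simp only [test]
    have := h1 p.1 p.2
    have := h2 p.1 p.2
    rw [abs_le]
    split_ifs <;> constructor <;> linarith
  · simp only [test]
    have := h1 u v
    have := h2 u v
    have h3 : 0 ≤ dg E R u / (R.card : ℝ) ^ 2 := div_nonneg (dg_nonneg E R u) (by positivity)
    have h4 : dg E R u / (R.card : ℝ) ^ 2 ≤ 1 := (div_le_one (by positivity)).mpr (dg_le E R u)
    rw [abs_le]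
    constructor <;> linarith

theorem test_sum (R : Finset V) (hR : 0 < R.card) (j : (V × V) ⊕ V) :
    ∑ v ∈ R, test E R j v = 0 := by
  have hn : (0 : ℝ) < R.card := by exact_mod_cast hR
  rcases j with p | u
  · simp only [test]
    rw [Finset.sum_sub_distrib, Finset.sum_const, nsmul_eq_mul]
    have : ∑ v ∈ R, (if E p.1 p.2 v then (1 : ℝ) else 0) = cod E R p.1 p.2 := rfl
    rw [this]
    field_simp
    ring
  · simp only [test]
    rw [Finset.sum_sub_distrib, Finset.sum_const, nsmul_eq_mul, ← Finset.sum_div]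
    have : ∑ v ∈ R, cod E R u v = dg E R u := rfl
    rw [this]
    field_simp
    ring

theorem transfer_cod (R W : Finset V) (L : ℝ)
    (h : ∀ j ∈ (R ×ˢ R).disjSum R, |∑ v ∈ W, test E R j v| ≤ L) (u v : V) (hu : u ∈ R)
    (hv : v ∈ R) : |cod E W u v - W.card * (cod E R u v / R.card)| ≤ L := by
  have := h (Sum.inl (u, v)) (by simp [hu, hv])
  simp only [test] at this
  rw [Finset.sum_sub_distrib, Finset.sum_const, nsmul_eq_mul] at this
  exact this

theorem transfer_dg (R W : Finset V) (hW : W ⊆ R) (L : ℝ)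
    (h : ∀ j ∈ (R ×ˢ R).disjSum R, |∑ v ∈ W, test E R j v| ≤ L) (v : V) (hv : v ∈ R) :
    |dg E W v - (W.card : ℝ) ^ 2 * (dg E R v / (R.card : ℝ) ^ 2)| ≤ 2 * W.card * L := by
  have h1 := h (Sum.inr v) (by simp [hv])
  simp only [test] at h1
  rw [Finset.sum_sub_distrib, Finset.sum_const, nsmul_eq_mul] at h1
  have h2 : |∑ y ∈ W, (cod E W v y - W.card * (cod E R v y / R.card))| ≤ W.card * L := by
    calc _ ≤ ∑ y ∈ W, |cod E W v y - W.card * (cod E R v y / R.card)| :=
          Finset.abs_sum_le_sum_abs _ _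
      _ ≤ ∑ _y ∈ W, L := Finset.sum_le_sum (fun y hy => transfer_cod E R W L h v y hv (hW hy))
      _ = W.card * L := by simp
  rw [Finset.sum_sub_distrib, ← Finset.mul_sum] at h2
  have h3 : ∑ y ∈ W, cod E W v y = dg E W v := rfl
  rw [h3] at h2
  have hm : (0 : ℝ) ≤ W.card := by positivity
  have h4 : |(W.card : ℝ) * (∑ y ∈ W, cod E R v y / R.card
      - W.card * (dg E R v / (R.card : ℝ) ^ 2))| ≤ W.card * L := by
    rw [abs_mul, abs_of_nonneg hm]
    exact mul_le_mul_of_nonneg_left h1 hm
  rw [abs_le] at h2 h4 ⊢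
  constructor <;> nlinarith [h2.1, h2.2, h4.1, h4.2]

end

/-- fourth root -/
noncomputable def rt (n : ℕ) : ℝ := Real.sqrt (Real.sqrt n)

theorem rt_pow (n : ℕ) : rt n ^ 4 = n := by
  unfold rt
  have h1 : Real.sqrt (Real.sqrt n) ^ 2 = Real.sqrt n := Real.sq_sqrt (Real.sqrt_nonneg _)
  have h2 : Real.sqrt n ^ 2 = n := Real.sq_sqrt (Nat.cast_nonneg n)
  calc Real.sqrt (Real.sqrt n) ^ 4 = (Real.sqrt (Real.sqrt n) ^ 2) ^ 2 := by ring
    _ = (n : ℝ) := by rw [h1, h2]

theorem rt_nonneg (n : ℕ) : 0 ≤ rt n := Real.sqrt_nonneg _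

theorem le_rt (n : ℕ) (x : ℝ) (hx : x ^ 4 ≤ n) : x ≤ rt n := by
  rw [← rt_pow n] at hx
  exact le_of_pow_le_pow_left₀ (by norm_num) (rt_nonneg n) hx

theorem param_ineq (s : ℝ) (hs : 1 ≤ s) (N : ℝ) (hN : N ≤ 2 * s ^ 8) :
    2 * N * Real.exp 1 ≤ Real.exp (6 * s) := by
  have h1 := Real.pow_div_factorial_le_exp (6 * s) (by linarith) 8
  have h2 : Real.exp 1 ≤ 3 := by
    have := Real.exp_one_lt_d9
    linarith
  have h3 : (Nat.factorial 8 : ℝ) = 40320 := by norm_num [Nat.factorial]
  rw [h3] at h1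
  have h4 : 0 < s ^ 8 := by positivity
  have h5 := Real.exp_pos 1
  have h6 : (6 * s) ^ 8 / 40320 = 1679616 / 40320 * s ^ 8 := by ring
  rw [h6] at h1
  nlinarith

/-- The main packing statement inside a vertex set. -/
theorem reach_small (t : ℕ) (ht : 1 ≤ t) (c : ℝ) (hc : 0 < c) (hc1 : c ≤ 1) :
    ∃ d : ℝ, 0 < d ∧ ∃ C : ℕ, ∀ (V : Type) [DecidableEq V] (E : V → V → V → Prop)
      [∀ x y z, Decidable (E x y z)] (R : Finset V), Sym3 E →
      (∀ u ∈ R, ∀ v ∈ R, u ≠ v → c * R.card ≤ cod E R u v) →
      (∀ u ∈ R, ∀ v ∈ R, dg E R u ≤ dg E R v + d * (R.card : ℝ) ^ 2) →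
      ∃ W, Reach E t R W ∧ W.card ≤ C := by
  obtain ⟨d, hd, n0, hdual⟩ := dual t ht (c / 2) (by positivity) (by linarith)
  have htR : (1 : ℝ) ≤ t := by exact_mod_cast ht
  set h : ℝ := 3 * t with hh
  have hh0 : 0 < h := by positivity
  set A : ℝ := 768 * h with hA
  have hA0 : 0 < A := by positivity
  set C : ℕ := 32 * n0 + 96 * t + 32 + ⌈(4 * A / c) ^ 4⌉₊ + ⌈(4 * A / d) ^ 4⌉₊ with hC
  refine ⟨d / 2, by positivity, C, ?_⟩
  intro V _ E _ R hE
  have main : ∀ (n : ℕ) (R : Finset V), R.card = n →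
      (∀ u ∈ R, ∀ v ∈ R, u ≠ v → (c - A / rt n) * R.card ≤ cod E R u v) →
      (∀ u ∈ R, ∀ v ∈ R, dg E R u ≤ dg E R v + (d / 2 + A / rt n) * (R.card : ℝ) ^ 2) →
      ∃ W, Reach E t R W ∧ W.card ≤ C := by
    intro n
    induction n using Nat.strong_induction_on with
    | _ n ih =>
    intro R hRn hcod hdg
    by_cases hsmall : n ≤ C
    · exact ⟨R, Reach.refl, by omega⟩
    have hnC : C < n := by omega
    set s : ℝ := rt n with hs
    have hs4 : s ^ 4 = n := rt_pow n
    have hs1 : 1 ≤ s := le_rt n 1 (by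
      rw [one_pow]
      exact_mod_cast (by omega : 1 ≤ n))
    have hs0 : 0 < s := by linarith
    have hsc : 4 * A / c ≤ s := le_rt n _
      (le_trans (Nat.le_ceil _) (Nat.cast_le.mpr (by omega)))
    have hsd : 4 * A / d ≤ s := le_rt n _
      (le_trans (Nat.le_ceil _) (Nat.cast_le.mpr (by omega)))
    have hφc : A / s ≤ c / 4 := by
      rw [div_le_iff₀ hc] at hsc
      rw [div_le_iff₀ hs0]
      linarith
    have hφd : A / s ≤ d / 4 := by
      rw [div_le_iff₀ hd] at hsd
      rw [div_le_iff₀ hs0]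
      linarith
    have hφ0 : 0 < A / s := by positivity
    have hnR : (0 : ℝ) < n := by exact_mod_cast (by omega : 0 < n)
    set L : ℝ := 6 * h * s ^ 3 with hL
    have hL0 : 0 < L := by positivity
    -- transfer of the invariants
    have trans : ∀ W ⊆ R, n ≤ 32 * W.card →
        (∀ j ∈ (R ×ˢ R).disjSum R, |∑ v ∈ W, test E R j v| ≤ L) →
        (∀ u ∈ W, ∀ v ∈ W, u ≠ v → (c - 2 * (A / s)) * W.card ≤ cod E W u v) ∧
        (∀ u ∈ W, ∀ v ∈ W,
          dg E W u ≤ dg E W v + (d / 2 + 2 * (A / s)) * (W.card : ℝ) ^ 2) := by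
      intro W hWR hW hgood
      have hW' : (n : ℝ) ≤ 32 * W.card := by exact_mod_cast hW
      have hm0 : (0 : ℝ) < W.card := by linarith
      have hLm : 4 * L ≤ A / s * W.card := by
        rw [div_mul_eq_mul_div, le_div_iff₀ hs0]
        have : 4 * L * s = 24 * h * n := by rw [hL, ← hs4]; ring
        rw [this, hA]
        nlinarith
      constructor
      · intro u hu v hv huv
        have a1 := (abs_le.mp (transfer_cod E R W L hgood u v (hWR hu) (hWR hv))).1
        have a2 := hcod u (hWR hu) v (hWR hv) huv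
        rw [hRn] at a1 a2
        have a3 : c - A / s ≤ cod E R u v / n := by
          rw [le_div_iff₀ hnR]
          exact a2
        have a4 := mul_le_mul_of_nonneg_left a3 hm0.le
        nlinarith
      · intro u hu v hv
        have a1 := (abs_le.mp (transfer_dg E R W hWR L hgood u (hWR hu))).2
        have a2 := (abs_le.mp (transfer_dg E R W hWR L hgood v (hWR hv))).1
        have a3 := hdg u (hWR hu) v (hWR hv)
        rw [hRn] at a1 a2 a3
        have a4 : dg E R u / (n : ℝ) ^ 2 ≤ dg E R v / (n : ℝ) ^ 2 + (d / 2 + A / s) := by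
          rw [div_add' _ _ _ (by positivity), div_le_div_iff_of_pos_right (by positivity)]
          exact a3
        have a5 := mul_le_mul_of_nonneg_left a4 (by positivity : (0 : ℝ) ≤ (W.card : ℝ) ^ 2)
        have a6 := mul_le_mul_of_nonneg_left hLm hm0.le
        nlinarith
    have hg := greedy hE ht ((R ×ˢ R).disjSum R) (test E R) R
      (fun j _ v _ => test_abs_le E R (by omega) j v)
      (fun j _ => test_sum E R (by omega) j) (1 / (h * s ^ 2)) L (by positivity)
      (by
        rw [← hh]
        have : 1 / (h * s ^ 2) * h = 1 / s ^ 2 := by field_simp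
        rw [this, div_le_one (by positivity)]
        nlinarith)
      (by
        rw [← hh, hRn]
        have e1 : (1 / (h * s ^ 2)) ^ 2 * h ^ 2 * n = 1 := by
          rw [← hs4]
          field_simp
        have e2 : 1 / (h * s ^ 2) * L = 6 * s := by
          rw [hL]
          field_simp
        rw [e1, e2]
        apply param_ineq s hs1
        rw [Finset.card_disjSum, Finset.card_product, hRn]
        push_cast
        have e3 : s ^ 8 = n * n := by rw [← hs4]; ring
        have e4 : (1 : ℝ) ≤ n := by exact_mod_cast (by omega : 1 ≤ n)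
        rw [e3]
        nlinarith)
      (n / 16 + 1) (by omega) (by omega)
      (by
        intro W hWR hW hgood w hw
        obtain ⟨t1, t2⟩ := trans W hWR (by omega) hgood
        have hm0 : (0 : ℝ) ≤ W.card := by positivity
        apply hdual V E W hE (by omega) _ _ w hw
        · intro u hu v hv huv
          refine le_trans ?_ (t1 u hu v hv huv)
          apply mul_le_mul_of_nonneg_right _ hm0
          linarith
        · intro u hu v hv
          refine le_trans (t2 u hu v hv) ?_
          have : (d / 2 + 2 * (A / s)) * (W.card : ℝ) ^ 2 ≤ d * (W.card : ℝ) ^ 2 := by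
            apply mul_le_mul_of_nonneg_right _ (by positivity)
            linarith
          linarith)
    obtain ⟨W, hW, hW1, hW2, hgood⟩ := hg
    obtain ⟨t1, t2⟩ := trans W hW.subset (by omega) hgood
    have hm0 : (0 : ℝ) ≤ W.card := by positivity
    have hrt : 2 * (A / s) ≤ A / rt W.card := by
      have r0 : 1 ≤ rt W.card := le_rt _ 1 (by
        rw [one_pow]
        exact_mod_cast (by omega : 1 ≤ W.card))
      have r1 : 2 * rt W.card ≤ s := le_rt n _ (by
        rw [mul_pow, rt_pow]
        have : 16 * W.card ≤ n := by omega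
        have : (16 : ℝ) * W.card ≤ n := by exact_mod_cast this
        linarith)
      rw [← mul_div_assoc, div_le_div_iff₀ hs0 (by linarith)]
      nlinarith
    obtain ⟨U, hU, hUc⟩ := ih W.card (by omega) W rfl
      (by
        intro u hu v hv huv
        refine le_trans ?_ (t1 u hu v hv huv)
        apply mul_le_mul_of_nonneg_right _ hm0
        linarith)
      (by
        intro u hu v hv
        refine le_trans (t2 u hu v hv) ?_
        have : (d / 2 + 2 * (A / s)) * (W.card : ℝ) ^ 2
            ≤ (d / 2 + A / rt W.card) * (W.card : ℝ) ^ 2 := by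
          apply mul_le_mul_of_nonneg_right _ (by positivity)
          linarith
        linarith)
    exact ⟨U, hW.trans hU, hUc⟩
  intro hcod hdg
  have hφ : 0 ≤ A / rt R.card := div_nonneg hA0.le (rt_nonneg _)
  have hm0 : (0 : ℝ) ≤ R.card := by positivity
  apply main R.card R rfl
  · intro u hu v hv huv
    refine le_trans ?_ (hcod u hu v hv huv)
    apply mul_le_mul_of_nonneg_right _ hm0
    linarith
  · intro u hu v hv
    refine le_trans (hdg u hu v hv) ?_
    have : d / 2 * (R.card : ℝ) ^ 2 ≤ (d / 2 + A / rt R.card) * (R.card : ℝ) ^ 2 := by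
      apply mul_le_mul_of_nonneg_right _ (by positivity)
      linarith
    linarith

end Pool.Agent.Lib.MP_b50c09_co
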