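import Mathlib
import Pool.Agent.Lib.MP_b50c09_co.Epoch

set_option autoImplicit false
set_option linter.unusedSectionVars false
set_option linter.unusedVariables false

namespace Pool.Agent.Lib.MP_b50c09_co

open Finset

section
variable {V : Type} [DecidableEq V] (G : Finset (Finset V))

theorem sym3_of (hG : ∀ e ∈ G, e.card = 3) :
    Sym3 (fun x y z : V => ({x, y, z} : Finset V) ∈ G) where
  s12 := by
    intro x y z h
    rwa [Finset.insert_comm]
  s23 := by
    intro x y z h
    rwa [Finset.pair_comm z y]
  irr := by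
    intro x z h
    have h1 := hG _ h
    rw [Finset.insert_eq_of_mem (by simp)] at h1
    have h2 : ({x, z} : Finset V).card ≤ 2 := Finset.card_le_two
    omega

theorem dg_eq [Fintype V] (hG : ∀ e ∈ G, e.card = 3) (v : V) :
    dg (fun x y z : V => ({x, y, z} : Finset V) ∈ G) Finset.univ v
      = 2 * ((G.filter (fun e => v ∈ e)).card : ℝ) := by
  have h1 : dg (fun x y z : V => ({x, y, z} : Finset V) ∈ G) Finset.univ v
      = (((Finset.univ ×ˢ Finset.univ).filter
          (fun p : V × V => ({v, p.1, p.2} : Finset V) ∈ G)).card : ℝ) := by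
    unfold dg cod
    rw [Finset.card_filter, Nat.cast_sum, Finset.sum_product]
    push_cast
    rfl
  have h2 : ((Finset.univ ×ˢ Finset.univ).filter
          (fun p : V × V => ({v, p.1, p.2} : Finset V) ∈ G)).card
      = ∑ e ∈ G.filter (fun e => v ∈ e), 2 := by
    rw [Finset.card_eq_sum_card_fiberwise (f := fun p : V × V => ({v, p.1, p.2} : Finset V))
      (t := G.filter (fun e => v ∈ e))]
    · apply Finset.sum_congr rfl
      intro e he
      rw [Finset.mem_filter] at he
      have hc : (e.erase v).card = 2 := by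
        rw [Finset.card_erase_of_mem he.2, hG e he.1]
      have : ((Finset.univ ×ˢ Finset.univ).filter
          (fun p : V × V => ({v, p.1, p.2} : Finset V) ∈ G)).filter
          (fun p : V × V => ({v, p.1, p.2} : Finset V) = e) = (e.erase v).offDiag := by
        ext ⟨a, b⟩
        simp only [Finset.mem_filter, Finset.mem_product, Finset.mem_univ, true_and,
          Finset.mem_offDiag, Finset.mem_erase]
        constructor
        · rintro ⟨h3, rfl⟩
          have h4 := hG _ h3
          rw [Finset.card_eq_three] at h4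
          have hva : a ≠ v := by
            rintro rfl
            exact (sym3_of G hG).irr _ _ h3
          have hvb : b ≠ v := by
            rintro rfl
            exact (sym3_of G hG).irr _ _ ((sym3_of G hG).s23 _ _ _ h3)
          have hab : a ≠ b := by
            rintro rfl
            exact (sym3_of G hG).irr _ _
              ((sym3_of G hG).s23 _ _ _ ((sym3_of G hG).s12 _ _ _ h3))
          exact ⟨⟨hva, by simp⟩, ⟨hvb, by simp⟩, hab⟩
        · rintro ⟨⟨hav, ha⟩, ⟨hbv, hb⟩, hab⟩
          have hsub : ({v, a, b} : Finset V) ⊆ e := by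
            intro x hx
            simp only [Finset.mem_insert, Finset.mem_singleton] at hx
            rcases hx with rfl | rfl | rfl
            · exact he.2
            · exact ha
            · exact hb
          have hcard : ({v, a, b} : Finset V).card = 3 :=
            Finset.card_eq_three.mpr ⟨v, a, b, hav.symm, hbv.symm, hab, rfl⟩
          have heq : ({v, a, b} : Finset V) = e :=
            Finset.eq_of_subset_of_card_le hsub (by rw [hcard, hG e he.1])
          exact ⟨heq ▸ he.1, heq⟩
      rw [this, Finset.offDiag_card, hc]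
    · intro p hp
      simp only [Finset.coe_filter, Set.mem_setOf_eq] at hp ⊢
      exact ⟨hp.2, by simp⟩
  rw [h1, h2, Finset.sum_const, smul_eq_mul]
  push_cast
  ring

variable {U : Type} [Fintype U] [DecidableEq U] [Nonempty U] (H : Finset (Finset U))

/-- A block splits into three copies of the tripartite 3-graph `H`. -/
theorem blk_copies (hG : ∀ e ∈ G, e.card = 3) (hH : ∀ e ∈ H, e.card = 3) (part : U → Fin 3)
    (hpart : ∀ e ∈ H, ∀ i : Fin 3, (e.filter (fun u => part u = i)).card = 1) (S : Finset V)
    (hS : Blk (fun x y z : V => ({x, y, z} : Finset V) ∈ G) (Fintype.card U) S) :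
    ∃ F : Fin 3 → (U ↪ V), (∀ k, ∀ e ∈ H, e.map (F k) ∈ G) ∧
      (∀ k k', k ≠ k' → Disjoint (Finset.univ.map (F k)) (Finset.univ.map (F k'))) ∧
      (∀ k, Finset.univ.map (F k) ⊆ S) ∧ ∀ v ∈ S, ∃ k, v ∈ Finset.univ.map (F k) := by
  obtain ⟨X, Y, Z, hX, hY, hZ, hc, rfl⟩ := hS
  have hE := sym3_of G hG
  obtain ⟨dXY, dXZ, dYZ⟩ := disj_of_complete hE Fintype.card_pos hX hY hZ hc
  let T : Fin 3 → Finset V := ![X, Y, Z]
  have hT : ∀ i, Fintype.card U = Fintype.card (T i) := by
    intro i
    fin_cases i <;> simp [T, hX, hY, hZ]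
  have hTd : ∀ i j, i ≠ j → Disjoint (T i) (T j) := by
    intro i j hij
    fin_cases i <;> fin_cases j <;>
      simp_all [T, disjoint_comm]
  have hTe : ∀ (k : Fin 3) (x y z : V), x ∈ T (0 + k) → y ∈ T (1 + k) → z ∈ T (2 + k) →
      ({x, y, z} : Finset V) ∈ G := by
    intro k x y z hx hy hz
    fin_cases k
    · exact hc x hx y hy z hz
    · exact hE.s23 _ _ _ (hE.s12 _ _ _ (hc z hz x hx y hy))
    · exact hE.s12 _ _ _ (hE.s23 _ _ _ (hc y hy z hz x hx))
  let g : ∀ i, U ≃ T i := fun i => Fintype.equivOfCardEq (hT i)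
  have ginj : ∀ (i j : Fin 3) (u u' : U), (g i u : V) = (g j u' : V) → i = j ∧ u = u' := by
    intro i j u u' h
    have hij : i = j := by
      by_contra hne
      have h1 := (g i u).2
      have h2 := (g j u').2
      rw [← h] at h2
      exact Finset.disjoint_left.mp (hTd i j hne) h1 h2
    subst hij
    exact ⟨rfl, (g i).injective (Subtype.ext h)⟩
  let F : Fin 3 → (U ↪ V) := fun k =>
    ⟨fun u => (g (part u + k) u : V), fun u u' h => (ginj _ _ _ _ h).2⟩
  have hF : ∀ k u, F k u = (g (part u + k) u : V) := fun _ _ => rfl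
  refine ⟨F, ?_, ?_, ?_, ?_⟩
  · intro k e he
    obtain ⟨a, ha⟩ := Finset.card_eq_one.mp (hpart e he 0)
    obtain ⟨b, hb⟩ := Finset.card_eq_one.mp (hpart e he 1)
    obtain ⟨c, hc'⟩ := Finset.card_eq_one.mp (hpart e he 2)
    have ha' : a ∈ e.filter (fun u => part u = 0) := by rw [ha]; simp
    have hb' : b ∈ e.filter (fun u => part u = 1) := by rw [hb]; simp
    have hc'' : c ∈ e.filter (fun u => part u = 2) := by rw [hc']; simp
    rw [Finset.mem_filter] at ha' hb' hc''
    have he' : e = {a, b, c} := by
      ext u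
      simp only [Finset.mem_insert, Finset.mem_singleton]
      constructor
      · intro hu
        have h3 : part u = 0 ∨ part u = 1 ∨ part u = 2 := by
          generalize part u = i
          fin_cases i <;> simp
        rcases h3 with h3 | h3 | h3
        · left
          have : u ∈ e.filter (fun u => part u = 0) := Finset.mem_filter.mpr ⟨hu, h3⟩
          rw [ha] at this
          simpa using this
        · right; left
          have : u ∈ e.filter (fun u => part u = 1) := Finset.mem_filter.mpr ⟨hu, h3⟩
          rw [hb] at this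
          simpa using this
        · right; right
          have : u ∈ e.filter (fun u => part u = 2) := Finset.mem_filter.mpr ⟨hu, h3⟩
          rw [hc'] at this
          simpa using this
      · rintro (rfl | rfl | rfl)
        · exact ha'.1
        · exact hb'.1
        · exact hc''.1
    rw [he', Finset.map_insert, Finset.map_insert, Finset.map_singleton]
    apply hTe k
    · rw [hF, ← ha'.2]
      exact (g _ a).2
    · rw [hF, ← hb'.2]
      exact (g _ b).2
    · rw [hF, ← hc''.2]
      exact (g _ c).2
  · intro k k' hkk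
    rw [Finset.disjoint_left]
    intro v h1 h2
    rw [Finset.mem_map] at h1 h2
    obtain ⟨u, _, hu⟩ := h1
    obtain ⟨u', _, hu'⟩ := h2
    rw [← hu', hF, hF] at hu
    obtain ⟨h3, h4⟩ := ginj _ _ _ _ hu
    subst h4
    exact hkk (add_left_cancel h3)
  · intro k v hv
    rw [Finset.mem_map] at hv
    obtain ⟨u, _, rfl⟩ := hv
    rw [hF]
    have h1 := (g (part u + k) u).2
    have h2 : ∀ i, T i ⊆ X ∪ Y ∪ Z := by
      intro i x hx
      fin_cases i <;> simp_all [T]
    exact h2 _ h1
  · intro v hv
    obtain ⟨i, hi⟩ : ∃ i, v ∈ T i := by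
      simp only [Finset.mem_union] at hv
      rcases hv with (hv | hv) | hv
      · exact ⟨0, hv⟩
      · exact ⟨1, hv⟩
      · exact ⟨2, hv⟩
    obtain ⟨u, hu⟩ := (g i).surjective ⟨v, hi⟩
    refine ⟨i - part u, Finset.mem_map.mpr ⟨u, Finset.mem_univ _, ?_⟩⟩
    rw [hF]
    have : part u + (i - part u) = i := by abel
    rw [this, hu]

theorem packing_of_reach (hG : ∀ e ∈ G, e.card = 3) (hH : ∀ e ∈ H, e.card = 3)
    (part : U → Fin 3)
    (hpart : ∀ e ∈ H, ∀ i : Fin 3, (e.filter (fun u => part u = i)).card = 1) (R W : Finset V)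
    (h : Reach (fun x y z : V => ({x, y, z} : Finset V) ∈ G) (Fintype.card U) R W) :
    ∃ P : Finset (U ↪ V), (∀ f ∈ P, ∀ e ∈ H, e.map f ∈ G) ∧
      (∀ f ∈ P, ∀ g ∈ P, f ≠ g → Disjoint (Finset.univ.map f) (Finset.univ.map g)) ∧
      (∀ f ∈ P, Disjoint (Finset.univ.map f) W) ∧
      ∀ v ∈ R, v ∉ W → ∃ f ∈ P, v ∈ Finset.univ.map f := by
  classical
  induction h with
  | refl => exact ⟨∅, by simp, by simp, by simp, fun v h1 h2 => absurd h1 h2⟩
  | step W S _ hSW hS ih =>
    obtain ⟨P, p1, p2, p3, p4⟩ := ih
    obtain ⟨F, f1, f2, f3, f4⟩ := blk_copies G H hG hH part hpart S hS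
    refine ⟨P ∪ Finset.univ.image F, ?_, ?_, ?_, ?_⟩
    · intro f hf
      rw [Finset.mem_union, Finset.mem_image] at hf
      rcases hf with hf | ⟨k, _, rfl⟩
      · exact p1 f hf
      · exact f1 k
    · intro f hf g hg hfg
      rw [Finset.mem_union, Finset.mem_image] at hf hg
      rcases hf with hf | ⟨k, _, rfl⟩
      · rcases hg with hg | ⟨k', _, rfl⟩
        · exact p2 f hf g hg hfg
        · exact (p3 f hf).mono_right ((f3 k').trans hSW)
      · rcases hg with hg | ⟨k', _, rfl⟩
        · exact ((p3 g hg).mono_right ((f3 k).trans hSW)).symm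
        · exact f2 k k' (fun h => hfg (by rw [h]))
    · intro f hf
      rw [Finset.mem_union, Finset.mem_image] at hf
      rcases hf with hf | ⟨k, _, rfl⟩
      · exact (p3 f hf).mono_right Finset.sdiff_subset
      · exact Finset.disjoint_sdiff.mono_left (f3 k)
    · intro v hv hvW
      by_cases hW : v ∈ W
      · have hvS : v ∈ S := by
          by_contra hh
          exact hvW (Finset.mem_sdiff.mpr ⟨hW, hh⟩)
        obtain ⟨k, hk⟩ := f4 v hvS
        exact ⟨F k, Finset.mem_union_right _ (Finset.mem_image.mpr ⟨k, Finset.mem_univ _, rfl⟩), hk⟩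
      · obtain ⟨f, hf, hvf⟩ := p4 v hv hW
        exact ⟨f, Finset.mem_union_left _ hf, hvf⟩

end

end Pool.Agent.Lib.MP_b50c09_co
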